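import Pool.Agent.H947R2.WRMain

/-!
# MP_75199a_ag, Q1: the statement is false

Let `K` be an algebraic closure of `𝔽₂` and let `G = (ℤ/2)²` act on `A^{12} = (A³)⁴` by exchanging
the first two and the last two factors; `X = A^{12} / G = Sym²(A³) × Sym²(A³)`. The stringy motive
`M_st(X)`, given by Yasuda's formula `∑_b {v⁻¹(b/4)} L^{12 - b/4}`, converges (so it is not `∞`),
but it is not a finite sum `∑_i z_i / (L^{a_i / 4} - 1)` with positive integers `a_i`, even if
arbitrary elements `z_i` of the ring `K₀(Var_K)[L⁻¹, L^{1/4}]` are allowed in place of the classes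
of varieties.
-/

namespace Pool.Agent.Results.MP_75199a_ag.NoSingleDenominators

open Pool.Agent.H947R2.WR MvPolynomial

/-- `rep` is a faithful linear representation of `G = (ℤ/2)²` on `K^{12}` without
pseudo-reflections: for `g ≠ 0` the space of the vectors fixed by `g`, which is the kernel of
`rep g - 1`, has codimension at least three. -/
def ActionOk : Prop :=
  Fintype.card Idx = 12 ∧ (∀ g h, rep (g + h) = rep g * rep h) ∧ Function.Injective rep ∧
    ∀ g ≠ 0, 3 ≤ (rep g - 1).rank

/-- Each `G`-torsor over `Spec K((t))`, that is (Artin–Schreier theory) each pair of elements of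
`K((t))` modulo the pairs `h_l² - h_l`, is given by exactly one finitely supported `F`. -/
def TorsorsOk : Prop :=
  ∀ f : Fin 2 → LaurentSeries K,
    ∃! F : ℕ →₀ K, ∃ h : Fin 2 → LaurentSeries K, ∀ l, f l - fser F l = h l ^ 2 - h l

/-- `v` is finite, and the torsors with `v = b / 4` have only their first `⌊b / 6⌋` coordinates
nonzero: hence `levelY b` is the whole level set `v⁻¹(b / 4)`. -/
def LevelsOk : Prop :=
  ∀ F : ℕ →₀ K, v4 F ≠ ⊤ ∧ ∀ b : ℕ, v4 F = b → ∀ i, b / 6 ≤ i → F i = 0

theorem rep_add (g h : Fin 2 → ZMod 2) : rep (g + h) = rep g * rep h := by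
  ext i k
  rw [Matrix.mul_apply]
  have e : swp h (swp g i) = swp (g + h) i := by
    unfold swp
    simp only [Pi.add_apply, add_assoc]
  simp only [rep, ite_mul, one_mul, zero_mul, Finset.sum_ite_eq', Finset.mem_univ, if_true, e]

theorem rep_injective : Function.Injective rep := by
  intro g h hgh
  funext l
  have h1 := congrFun (congrFun hgh (l, 0, 0)) (swp g (l, 0, 0))
  have h2 : rep g (l, 0, 0) (swp g (l, 0, 0)) = 1 := if_pos rfl
  rw [h2] at h1
  by_contra hne
  have h3 : rep h (l, 0, 0) (swp g (l, 0, 0)) = 0 := by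
    refine if_neg ?_
    intro h4
    have h5 := congrArg (fun i : Idx => i.2.1) h4
    simp only [swp, zero_add] at h5
    exact hne h5
  rw [h3] at h1
  exact one_ne_zero h1

/-- the projection used to bound the rank -/
noncomputable def PP (l : Fin 2) : Matrix (Fin 3) Idx K := fun r i => if i = (l, 0, r) then 1 else 0

/-- the inclusion used to bound the rank -/
noncomputable def QQ (l : Fin 2) : Matrix Idx (Fin 3) K := fun k r => if k = (l, 1, r) then 1 else 0

theorem PP_mul (l : Fin 2) (A : Matrix Idx Idx K) (r : Fin 3) (k : Idx) :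
    (PP l * A) r k = A (l, 0, r) k := by
  rw [Matrix.mul_apply]
  simp only [PP, ite_mul, one_mul, zero_mul, Finset.sum_ite_eq', Finset.mem_univ, if_true]

theorem mul_QQ (l : Fin 2) (A : Matrix (Fin 3) Idx K) (r r' : Fin 3) :
    (A * QQ l) r r' = A r (l, 1, r') := by
  rw [Matrix.mul_apply]
  simp only [QQ, mul_ite, mul_one, mul_zero, Finset.sum_ite_eq', Finset.mem_univ, if_true]

theorem rep_rank (g : Fin 2 → ZMod 2) (hg : g ≠ 0) : 3 ≤ (rep g - 1).rank := by
  obtain ⟨l, hl⟩ : ∃ l, g l ≠ 0 := by
    by_contra h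
    push Not at h
    exact hg (funext h)
  have hl1 : g l = 1 := by
    have : ∀ x : ZMod 2, x ≠ 0 → x = 1 := by decide
    exact this _ hl
  have h1 : PP l * (rep g - 1) * QQ l = 1 := by
    ext r r'
    rw [mul_QQ, PP_mul, Matrix.sub_apply, Matrix.one_apply, Matrix.one_apply]
    have h3 : ((l, 0, r) : Idx) ≠ (l, 1, r') := by
      intro h
      have h5 : (0 : ZMod 2) = 1 := congrArg (fun i : Idx => i.2.1) h
      exact absurd h5 (by decide)
    rw [if_neg h3, sub_zero]
    simp only [rep, swp, hl1, zero_add]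
    by_cases h : r = r'
    · subst h
      simp
    · rw [if_neg h, if_neg]
      intro h6
      have h7 := congrArg (fun i : Idx => i.2.2) h6
      exact h h7.symm
  have h2 : (PP l * (rep g - 1) * QQ l).rank = 3 := by
    rw [h1, Matrix.rank_one, Fintype.card_fin]
  calc 3 = (PP l * (rep g - 1) * QQ l).rank := h2.symm
    _ ≤ (PP l * (rep g - 1)).rank := Matrix.rank_mul_le_left _ _
    _ ≤ (rep g - 1).rank := Matrix.rank_mul_le_right _ _

/-- The stringy motive of `Sym²(A³) × Sym²(A³)` in characteristic two is finite and it is not a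
finite sum `∑_i z_i / (L^{a_i / 4} - 1)`. -/
theorem result : ActionOk ∧ TorsorsOk ∧ LevelsOk ∧ ConvergesMod relSub stringy ∧
    ¬ FiniteSumMod relSub stringy ∧ ¬ FiniteSumMod relSubUH stringy :=
  ⟨⟨by simp [Idx], rep_add, rep_injective, rep_rank⟩, torsor_param, levels_ok, converges,
    not_finite relSub mu_rel, not_finite relSubUH mu_relUH⟩

end Pool.Agent.Results.MP_75199a_ag.NoSingleDenominators
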